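import Pool.Agent.helper66.SL.SpecA

set_option autoImplicit false

/-! # Row sl:HHF (MP_ad2b66_co): no holonomy around covectors of corank two, from the rank three condition -/

namespace Pool.Agent.helper66.SL

open Pool.Agent.helper52.FC

private theorem HHF_trans {E : Type} {X Y Z : E → SignType} (h1 : Le X Y) (h2 : Le Y Z) : Le X Z := by
  intro e
  rcases h1 e with h3 | h3
  · exact Or.inl h3
  · rcases h2 e with h4 | h4
    · exact Or.inl (h3.trans h4)
    · exact Or.inr (h3.trans h4)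

private theorem HHF_zero {E : Type} {X Y : E → SignType} (h1 : Le X Y) {e : E} (h : Y e = 0) : X e = 0 := by
  rcases h1 e with h3 | h3
  · exact h3
  · exact h3.trans h

private theorem HHF_fl {E : Type} {X S : E → SignType} (h1 : Le X S) {e : E} (h : X e = 0) : Le X (fl S e) := by
  intro g
  by_cases hg : g = e
  · rw [hg]
    exact Or.inl h
  · rw [fl_ne _ hg]
    exact h1 g

/-- zeros of a covector of corank three -/
private theorem HHF_set {E : Type} [Finite E] {L : Set (E → SignType)} {Z X S : E → SignType}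
    (hZ : Cork L Z 2) (hX : Cork L X 3) (hS : IsTope L S) (hXS : Le X S) (hZS : Le Z S) (hXZ : Le X Z)
    {g : E} (hg : Wall L S g) (hXg : X g = 0) (hZg : Z g ≠ 0) :
    {e | Wall L S e ∧ X e = 0} = insert g {e | Wall L S e ∧ Z e = 0} := by
  symm
  apply Set.eq_of_subset_of_ncard_le
  · intro e he
    rcases Set.mem_insert_iff.1 he with rfl | he
    · exact ⟨hg, hXg⟩
    · exact ⟨he.1, HHF_zero hXZ he.2⟩
  · rw [hX.2 S hS hXS, Set.ncard_insert_of_notMem (fun h => hZg h.2) (Set.toFinite _), hZ.2 S hS hZS]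
  · exact Set.toFinite _

private theorem HHF_uniq {E : Type} [Finite E] (hXUQ : XUQ) {L : Set (E → SignType)} (hL : Good L)
    {Z X X' S : E → SignType}
    (hZ : Cork L Z 2) (hX : Cork L X 3) (hX' : Cork L X' 3) (hS : IsTope L S) (hXS : Le X S) (hXS' : Le X' S)
    (hZS : Le Z S) (hXZ : Le X Z) (hXZ' : Le X' Z)
    {g : E} (hg : Wall L S g) (hXg : X g = 0) (hXg' : X' g = 0) (hZg : Z g ≠ 0) : X = X' := by
  have h1 := HHF_set hZ hX hS hXS hZS hXZ hg hXg hZg
  have h2 := HHF_set hZ hX' hS hXS' hZS hXZ' hg hXg' hZg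
  refine hXUQ E L hL S hS X hX.1 X' hX'.1 hXS hXS' ?_
  intro e he
  have h3 : e ∈ {e | Wall L S e ∧ X e = 0} ↔ e ∈ {e | Wall L S e ∧ X' e = 0} := by rw [h1, h2]
  exact ⟨fun h => (h3.1 ⟨he, h⟩).2, fun h => (h3.2 ⟨he, h⟩).2⟩

theorem HHF_proof (hBIJ : BIJ) (hXJW : XJW) (hXUQ : XUQ) : HHF := by
  intro E _ L F hL hF h3 Z hZ T hT hZT a0
  -- the functions attached to the covectors of corank three below `Z`
  have hfX : ∀ X, Cork L X 3 ∧ Le X Z → ∃ f : E → ℝ, (∀ g, Wall L T g → X g = 0 → f g = a0 g) ∧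
      ∀ Z', Cork L Z' 2 → Le X Z' → f ∈ F Z' :=
    fun X hX => h3 X hX.1 T hT (HHF_trans hX.2 hZT) a0
  choose! fX hfX1 hfX2 using hfX
  -- the two walls of `T` in the zero set of `Z`
  obtain ⟨i, j, hij, hWT⟩ := Set.ncard_eq_two.1 (hZ.2 T hT hZT)
  have hi : Wall L T i ∧ Z i = 0 := by
    have : i ∈ {e | Wall L T e ∧ Z e = 0} := by rw [hWT]; exact Set.mem_insert _ _
    exact this
  have hj : Wall L T j ∧ Z j = 0 := by
    have : j ∈ {e | Wall L T e ∧ Z e = 0} := by rw [hWT]; exact Set.mem_insert_of_mem _ rfl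
    exact this
  obtain ⟨f0, hf0, hf0i, hf0j⟩ := hF.ext Z hZ T hT hZT i j hij hi.1 hj.1 hi.2 hj.2 (a0 i) (a0 j)
  have hf0a : ∀ g, Wall L T g → Z g = 0 → f0 g = a0 g := by
    intro g hg hZg
    have : g ∈ {e | Wall L T e ∧ Z e = 0} := ⟨hg, hZg⟩
    rw [hWT] at this
    rcases this with rfl | h
    · exact hf0i
    · rw [Set.mem_singleton_iff.1 h]
      exact hf0j
  have hf0X : ∀ X, Cork L X 3 → Le X Z → ∀ g, Z g = 0 → fX X g = f0 g := by
    intro X hX hXZ g hZg
    have h4 : fX X ∈ F Z := hfX2 X ⟨hX, hXZ⟩ Z hZ (fun e => by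
      exact hXZ e)
    have h5 : fX X - f0 ∈ F Z := (F Z).sub_mem h4 hf0
    have h6 : (fX X - f0) i = 0 := by
      rw [Pi.sub_apply, hfX1 X ⟨hX, hXZ⟩ i hi.1 (HHF_zero hXZ hi.2), hf0i, sub_self]
    have h7 : (fX X - f0) j = 0 := by
      rw [Pi.sub_apply, hfX1 X ⟨hX, hXZ⟩ j hj.1 (HHF_zero hXZ hj.2), hf0j, sub_self]
    have h8 := hF.uniq Z hZ T hT hZT i j hij hi.1 hj.1 hi.2 hj.2 (fX X - f0) h5 h6 h7 g hZg
    rw [Pi.sub_apply] at h8
    linarith
  -- the covector of corank three attached to a wall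
  have hXS : ∀ (S : E → SignType) (g : E), IsTope L S ∧ Le Z S ∧ Wall L S g ∧ Z g ≠ 0 →
      ∃ X : E → SignType, Cork L X 3 ∧ Le X S ∧ Le X Z ∧ X g = 0 := by
    rintro S g ⟨hS, hZS, hg, hZg⟩
    obtain ⟨X, hX1, hX2, hX3⟩ := hXJW E L hL S hS (insert g {e | Wall L S e ∧ Z e = 0}) (by
      intro e he
      rcases Set.mem_insert_iff.1 he with rfl | he
      · exact hg
      · exact he.1)
    rw [Set.ncard_insert_of_notMem (fun h => hZg h.2) (Set.toFinite _), hZ.2 S hS hZS] at hX1
    refine ⟨X, hX1, hX2, ?_, (hX3 g hg).2 (Set.mem_insert _ _)⟩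
    refine (hBIJ E L hL S hS).2 X hX1.1 Z hZ.1 hX2 hZS ?_
    intro e he hZe
    exact (hX3 e he).2 (Set.mem_insert_of_mem _ ⟨he, hZe⟩)
  choose! XS hXS using hXS
  classical
  refine ⟨fun S g => if Z g = 0 then f0 g else fX (XS S g) g, ?_, ?_⟩
  · intro g hg
    change (if Z g = 0 then f0 g else fX (XS T g) g) = a0 g
    by_cases hZg : Z g = 0
    · rw [if_pos hZg]
      exact hf0a g hg hZg
    · rw [if_neg hZg]
      obtain ⟨x1, x2, x3, x4⟩ := hXS T g ⟨hT, hZT, hg, hZg⟩
      exact hfX1 _ ⟨x1, x3⟩ g hg x4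
  · intro S hS hZS e he hZe
    have hZS' : Le Z (fl S e) := HHF_fl hZS hZe
    refine ⟨?_, ?_⟩
    · change (if Z e = 0 then f0 e else fX (XS S e) e) = (if Z e = 0 then f0 e else fX (XS (fl S e) e) e)
      rw [if_pos hZe, if_pos hZe]
    · intro Y hY hYS hYe
      by_cases hYZ : Y = Z
      · refine ⟨f0, by rw [hYZ]; exact hf0, ?_, ?_⟩
        · intro g _ hYg
          change (if Z g = 0 then f0 g else fX (XS S g) g) = f0 g
          rw [hYZ] at hYg
          rw [if_pos hYg]
        · intro g _ hYg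
          change (if Z g = 0 then f0 g else fX (XS (fl S e) g) g) = f0 g
          rw [hYZ] at hYg
          rw [if_pos hYg]
      · have hj' : ∃ k, Wall L S k ∧ Y k = 0 ∧ Z k ≠ 0 := by
          by_contra hcon
          push Not at hcon
          apply hYZ
          have h4 : {g | Wall L S g ∧ Y g = 0} = {g | Wall L S g ∧ Z g = 0} := by
            apply Set.eq_of_subset_of_ncard_le
            · intro g hg
              exact ⟨hg.1, hcon g hg.1 hg.2⟩
            · rw [hY.2 S hS hYS, hZ.2 S hS hZS]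
            · exact Set.toFinite _
          refine hXUQ E L hL S hS Y hY.1 Z hZ.1 hYS hZS ?_
          intro g hg
          have h5 : g ∈ {g | Wall L S g ∧ Y g = 0} ↔ g ∈ {g | Wall L S g ∧ Z g = 0} := by rw [h4]
          exact ⟨fun h => (h5.1 ⟨hg, h⟩).2, fun h => (h5.2 ⟨hg, h⟩).2⟩
        obtain ⟨k, hk, hYk, hZk⟩ := hj'
        obtain ⟨x1, x2, x3, x4⟩ := hXS S k ⟨hS, hZS, hk, hZk⟩
        obtain ⟨X, hXdef⟩ : ∃ X, X = XS S k := ⟨_, rfl⟩
        rw [← hXdef] at x1 x2 x3 x4
        have hek : e ≠ k := by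
          intro h
          rw [h] at hZe
          exact hZk hZe
        have hXe : X e = 0 := HHF_zero x3 hZe
        have hXY : Le X Y := by
          refine (hBIJ E L hL S hS).2 X x1.1 Y hY.1 x2 hYS ?_
          intro g hg hYg
          have h4 : ({e, k} : Set E) = {g | Wall L S g ∧ Y g = 0} := by
            apply Set.eq_of_subset_of_ncard_le
            · intro g hg
              rcases hg with rfl | hg
              · exact ⟨he, hYe⟩
              · rw [Set.mem_singleton_iff.1 hg]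
                exact ⟨hk, hYk⟩
            · rw [hY.2 S hS hYS, Set.ncard_pair hek]
            · exact Set.toFinite _
          have h5 : g ∈ ({e, k} : Set E) := by
            rw [h4]
            exact ⟨hg, hYg⟩
          rcases h5 with rfl | h5
          · exact hXe
          · rw [Set.mem_singleton_iff.1 h5]
            exact x4
        have hmem : fX X ∈ F Y := hfX2 X ⟨x1, x3⟩ Y hY hXY
        have hkey : ∀ S', IsTope L S' → Le Z S' → Le X S' → ∀ g, Wall L S' g → Y g = 0 →
            (if Z g = 0 then f0 g else fX (XS S' g) g) = fX X g := by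
          intro S' hS' hZS'' hXS' g hg hYg
          by_cases hZg : Z g = 0
          · rw [if_pos hZg]
            exact (hf0X X x1 x3 g hZg).symm
          · rw [if_neg hZg]
            obtain ⟨y1, y2, y3, y4⟩ := hXS S' g ⟨hS', hZS'', hg, hZg⟩
            have h6 : XS S' g = X := HHF_uniq hXUQ hL hZ y1 x1 hS' y2 hXS' hZS'' y3 x3 hg y4
              (HHF_zero hXY hYg) hZg
            rw [h6]
        exact ⟨fX X, hmem, hkey S hS hZS x2, hkey (fl S e) he hZS' (HHF_fl x2 hXe)⟩

end Pool.Agent.helper66.SL
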